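import Pool.Agent.Q17.OS.Stm
import Pool.Agent.Y62.Transfer

/-!
# Project OS of helper17, job DPR (the product formula for Dade's alternating sums), by helper261

(the invariance under conjugation follows `Pool.Agent.Q239.DC.CNJ`)
-/

set_option autoImplicit false

open scoped BigOperators Classical
open Pool.Agent.H254R3.IN Pool.Agent.Y63.KR Pool.Agent.Q17.DC Pool.Agent.Y62 Pool.Agent.Q17.OS

noncomputable section

namespace Pool.Agent.Q261.OS

variable {E : Type} [Group E]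

/-- the stabiliser set of `Cnt` -/
def sb (G H : Subgroup E) (ψ : (G ⊓ H : Subgroup E) → ℂ) : Set E :=
  {e : E | ∃ g ∈ G, ∃ h ∈ H, e = g * h ∧
    ∀ x x' : (G ⊓ H : Subgroup E), (x' : E) = h * x * h⁻¹ → ψ x' = ψ x}

/-- one inclusion of the stabilisers -/
lemma sb_sub {G H H' : Subgroup E} [G.Normal] (c : (G ⊓ H' : Subgroup E) ≃* (G ⊓ H : Subgroup E))
    {g : E} (hg : g ∈ G) (hc : ∀ x, ((c.symm x : (G ⊓ H' : Subgroup E)) : E) = g * x * g⁻¹)
    (hH : ∀ e, e ∈ H' ↔ g⁻¹ * e * g ∈ H) (ψ : (G ⊓ H : Subgroup E) → ℂ) :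
    sb G H' (fun x => ψ (c x)) ⊆ sb G H ψ := by
  rintro w ⟨u, hu, e, he, hw, hx⟩
  refine ⟨u * (e * g⁻¹ * e⁻¹) * g, ?_, g⁻¹ * e * g, (hH e).mp he, ?_, ?_⟩
  · refine G.mul_mem (G.mul_mem hu ?_) hg
    exact ‹G.Normal›.conj_mem _ (G.inv_mem hg) e
  · rw [hw]
    group
  · intro x x' hxx
    have h1 := hx (c.symm x) (c.symm x') (by
      rw [hc, hc, hxx]
      group)
    change ψ (c (c.symm x')) = ψ (c (c.symm x)) at h1
    rwa [c.apply_symm_apply, c.apply_symm_apply] at h1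

/-- the stabilisers agree -/
lemma sb_eq {G H H' : Subgroup E} [G.Normal] (c : (G ⊓ H' : Subgroup E) ≃* (G ⊓ H : Subgroup E))
    {g : E} (hg : g ∈ G) (hc : ∀ x, ((c x : (G ⊓ H : Subgroup E)) : E) = g⁻¹ * x * g)
    (hc' : ∀ x, ((c.symm x : (G ⊓ H' : Subgroup E)) : E) = g * x * g⁻¹)
    (hH : ∀ e, e ∈ H' ↔ g⁻¹ * e * g ∈ H) (ψ : (G ⊓ H : Subgroup E) → ℂ) :
    sb G H' (fun x => ψ (c x)) = sb G H ψ := by
  refine Set.Subset.antisymm (sb_sub c hg hc' hH ψ) ?_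
  have h1 : ψ = fun x => (fun y => ψ (c y)) (c.symm x) := by
    funext x
    change ψ x = ψ (c (c.symm x))
    rw [c.apply_symm_apply]
  have h2 := sb_sub (G := G) (H := H') (H' := H) c.symm (g := g⁻¹)
    (G.inv_mem hg) (fun x => by
      change ((c x : (G ⊓ H : Subgroup E)) : E) = _
      rw [hc, inv_inv]) (fun e => by
      rw [hH, inv_inv]
      have e1 : g⁻¹ * (g * e * g⁻¹) * g = e := by group
      rw [e1]) (fun y => ψ (c y))
  rwa [← h1] at h2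

/-- transport of a counted character -/
lemma cnt_of {p : ℕ} {O : ValuationSubring ℂ} {G Zc : Subgroup E} [G.Normal]
    (hZ : ∀ z ∈ Zc, z ∈ G ∧ ∀ g ∈ G, g * z = z * g) {lam : E → ℂ} {B : Set (G → ℂ)} {U : Set E}
    {d : ℕ} {H H' : Subgroup E} (c : (G ⊓ H' : Subgroup E) ≃* (G ⊓ H : Subgroup E))
    {g : E} (hg : g ∈ G) (hc : ∀ x, ((c x : (G ⊓ H : Subgroup E)) : E) = g⁻¹ * x * g)
    (hc' : ∀ x, ((c.symm x : (G ⊓ H' : Subgroup E)) : E) = g * x * g⁻¹)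
    (hH : ∀ e, e ∈ H' ↔ g⁻¹ * e * g ∈ H) {ψ : (G ⊓ H : Subgroup E) → ℂ}
    (h : Cnt p O G Zc lam B U d H ψ) : Cnt p O G Zc lam B U d H' (fun x => ψ (c x)) := by
  refine ⟨irr_comp h.irr c, ?_, ?_, ?_, ?_⟩
  · intro χ hχ x
    have h1 := h.ind χ hχ x
    have h2 : indc G (G ⊓ H') (fun x => ψ (c x)) (x : E) = indc G (G ⊓ H) ψ (x : E) := by
      unfold indc
      refine finsum_eq_of_bijective
        (fun y : {y : (G ⊓ H' : Subgroup E) // ∃ k ∈ G, k * (x : E) * k⁻¹ = y} =>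
          (⟨c y.1, by
            obtain ⟨k, hk, hky⟩ := y.2
            refine ⟨g⁻¹ * k, G.mul_mem (G.inv_mem hg) hk, ?_⟩
            rw [hc, ← hky]
            group⟩ : {y : (G ⊓ H : Subgroup E) // ∃ k ∈ G, k * (x : E) * k⁻¹ = y})) ⟨?_, ?_⟩ ?_
      · intro y y' hyy
        exact Subtype.ext (c.injective (congrArg Subtype.val hyy))
      · rintro ⟨y, k, hk, hky⟩
        refine ⟨⟨c.symm y, g * k, G.mul_mem hg hk, ?_⟩, ?_⟩
        · rw [hc', ← hky]
          group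
        · apply Subtype.ext
          exact c.apply_symm_apply y
      · intro y
        change ψ (c y.1) / ψ (c 1) = ψ (c y.1) / ψ 1
        rw [map_one]
    rw [h2]
    exact h1
  · intro x y hx
    have h1 : ((c x : (G ⊓ H : Subgroup E)) : E) = x := by
      rw [hc, mul_assoc, ← (hZ _ hx).2 g hg]
      group
    have h2 := h.lin (c x) (c y) (by rw [h1]; exact hx)
    rw [h1, ← map_mul] at h2
    exact h2
  · obtain ⟨n, hn, hT⟩ := h.defect
    refine ⟨n, ?_, ?_⟩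
    · rw [map_one]
      exact hn
    · rw [Nat.card_congr c.toEquiv]
      exact hT
  · have h1 := sb_eq c hg hc hc' hH ψ
    have h2 : sb G H ψ = U := h.stab
    rw [h2] at h1
    exact h1

/-- the number of the counted characters and conjugation -/
lemma cn_conj {p : ℕ} {O : ValuationSubring ℂ} {G Zc : Subgroup E} [G.Normal]
    (hZ : ∀ z ∈ Zc, z ∈ G ∧ ∀ g ∈ G, g * z = z * g) {lam : E → ℂ} {B : Set (G → ℂ)} {U : Set E}
    {d : ℕ} {H H' : Subgroup E} {g : E} (hg : g ∈ G)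
    (hH : ∀ e, e ∈ H' ↔ g⁻¹ * e * g ∈ H) :
    cn p O G Zc lam B U d H' = cn p O G Zc lam B U d H := by
  have hm : ∀ x : E, x ∈ G ⊓ H' → g⁻¹ * x * g ∈ G ⊓ H := fun x hx =>
    ⟨by
      have := ‹G.Normal›.conj_mem x hx.1 g⁻¹
      rwa [inv_inv] at this, (hH x).mp hx.2⟩
  have hm' : ∀ x : E, x ∈ G ⊓ H → g * x * g⁻¹ ∈ G ⊓ H' := fun x hx =>
    ⟨‹G.Normal›.conj_mem x hx.1 g, (hH _).mpr (by
      have e : g⁻¹ * (g * x * g⁻¹) * g = x := by group
      rw [e]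
      exact hx.2)⟩
  let c : (G ⊓ H' : Subgroup E) ≃* (G ⊓ H : Subgroup E) :=
    { toFun := fun x => ⟨g⁻¹ * x * g, hm _ x.2⟩
      invFun := fun x => ⟨g * x * g⁻¹, hm' _ x.2⟩
      left_inv := fun x => Subtype.ext (by
        change g * (g⁻¹ * (x : E) * g) * g⁻¹ = x
        group)
      right_inv := fun x => Subtype.ext (by
        change g⁻¹ * (g * (x : E) * g⁻¹) * g = x
        group)
      map_mul' := fun x y => Subtype.ext (by
        change g⁻¹ * ((x : E) * y) * g = g⁻¹ * x * g * (g⁻¹ * y * g)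
        group) }
  have hc : ∀ x, ((c x : (G ⊓ H : Subgroup E)) : E) = g⁻¹ * x * g := fun x => rfl
  have hc' : ∀ x, ((c.symm x : (G ⊓ H' : Subgroup E)) : E) = g * x * g⁻¹ := fun x => rfl
  unfold cn
  refine Nat.card_congr (Equiv.symm ?_)
  exact
    { toFun := fun ψ => ⟨fun x => ψ.1 (c x), cnt_of hZ c hg hc hc' hH ψ.2⟩
      invFun := fun ψ => ⟨fun x => ψ.1 (c.symm x), cnt_of hZ c.symm (g := g⁻¹) (G.inv_mem hg)
        (fun x => by rw [hc', inv_inv]) (fun x => by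
          change ((c x : (G ⊓ H : Subgroup E)) : E) = _
          rw [hc, inv_inv]) (fun e => by
          rw [hH, inv_inv]
          have e1 : g⁻¹ * (g * e * g⁻¹) * g = e := by group
          rw [e1]) ψ.2⟩
      left_inv := fun ψ => Subtype.ext (funext fun x => by
        change ψ.1 (c (c.symm x)) = ψ.1 x
        rw [c.apply_symm_apply])
      right_inv := fun ψ => Subtype.ext (funext fun x => by
        change ψ.1 (c.symm (c x)) = ψ.1 x
        rw [c.symm_apply_apply]) }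

/-- the stabiliser of a conjugate chain -/
lemma stab_conj (σ : Set (Subgroup E)) (g e : E) :
    e ∈ chainStabilizer (conjSub g '' σ) ↔ g⁻¹ * e * g ∈ chainStabilizer σ := by
  have key : ∀ P : Subgroup E, e ∈ Subgroup.normalizer (conjSub g P : Set E) ↔
      g⁻¹ * e * g ∈ Subgroup.normalizer (P : Set E) := by
    intro P
    have hmem : ∀ x : E, x ∈ conjSub g P ↔ g⁻¹ * x * g ∈ P := by
      intro x
      unfold conjSub
      rw [Subgroup.mem_map]
      constructor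
      · rintro ⟨y, hy, rfl⟩
        change g⁻¹ * (g * y * g⁻¹) * g ∈ P
        have e1 : g⁻¹ * (g * y * g⁻¹) * g = y := by group
        rwa [e1]
      · intro h
        refine ⟨_, h, ?_⟩
        change g * (g⁻¹ * x * g) * g⁻¹ = x
        group
    rw [Subgroup.mem_normalizer_iff, Subgroup.mem_normalizer_iff]
    constructor
    · intro h x
      have h1 := h (g * x * g⁻¹)
      rw [hmem, hmem] at h1
      have e1 : g⁻¹ * (g * x * g⁻¹) * g = x := by group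
      have e2 : g⁻¹ * (e * (g * x * g⁻¹) * e⁻¹) * g = g⁻¹ * e * g * x * (g⁻¹ * e * g)⁻¹ := by group
      rwa [e1, e2] at h1
    · intro h x
      rw [hmem, hmem]
      have h1 := h (g⁻¹ * x * g)
      have e2 : g⁻¹ * e * g * (g⁻¹ * x * g) * (g⁻¹ * e * g)⁻¹ = g⁻¹ * (e * x * e⁻¹) * g := by group
      rwa [e2] at h1
  unfold chainStabilizer
  simp only [Subgroup.mem_iInf]
  constructor
  · intro h P hP
    exact (key P).mp (h _ ⟨P, hP, rfl⟩)
  · rintro h _ ⟨P, hP, rfl⟩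
    exact (key P).mpr (h P hP)

/-- the generating function -/
def Fs (p : ℕ) (O : ValuationSubring ℂ) (G Zc : Subgroup E)
    (lam : E → ℂ) (B : Set (G → ℂ)) (U : Set E) (H : Subgroup E) : PowerSeries ℤ :=
  PowerSeries.mk fun d => (Nat.card (G ⊓ H : Subgroup E) : ℤ) * (cn p O G Zc lam B U d H : ℤ)

/-- the coefficients of `CS` -/
lemma coeff_CS (hALX : S_ALX) (p : ℕ) [Fact p.Prime] [Finite E] (O : ValuationSubring ℂ)
    (G Z Zc : Subgroup E) [G.Normal] [Z.Normal]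
    (hZ : ∀ z ∈ Zc, z ∈ G ∧ ∀ g ∈ G, g * z = z * g) (lam : E → ℂ) (B : Set (G → ℂ)) (U : Set E)
    (d : ℕ) : PowerSeries.coeff d (CS p G Z (Fs p O G Zc lam B U)) =
      (Nat.card G : ℤ) * DA p O G Z Zc lam B U d := by
  unfold DA
  rw [hALX p E G Z _ fun σ _ g hg => by
    rw [cn_conj hZ hg (stab_conj σ g)]]
  unfold CS
  have h1 := AddMonoidHom.map_finsum (PowerSeries.coeff (R := ℤ) d).toAddMonoidHom
    (f := fun σ : {σ : Set (Subgroup E) // Ch p G Z σ} =>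
      (-1 : PowerSeries ℤ) ^ σ.1.ncard * Fs p O G Zc lam B U (chainStabilizer σ.1))
    (Set.toFinite _)
  refine h1.trans (finsum_congr fun σ => ?_)
  change PowerSeries.coeff d ((-1 : PowerSeries ℤ) ^ σ.1.ncard *
    Fs p O G Zc lam B U (chainStabilizer σ.1)) = _
  have h2 : PowerSeries.coeff d (Fs p O G Zc lam B U (chainStabilizer σ.1)) =
      (Nat.card (Ns G σ.1) : ℤ) * (cn p O G Zc lam B U d (chainStabilizer σ.1) : ℤ) := by
    unfold Fs
    rw [PowerSeries.coeff_mk]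
    rfl
  rcases Nat.even_or_odd σ.1.ncard with h | h
  · rw [h.neg_one_pow, h.neg_one_pow, one_mul, one_mul, h2]
  · rw [h.neg_one_pow, h.neg_one_pow, neg_one_mul, neg_one_mul, map_neg, h2]

/-- **DPR** -/
theorem t_DPR : S_PRS → S_ALX → S_PCN → S_DPR := by
  intro hPRS hALX hPCN p hp O hO E₁ E₂ _ _ _ _ G₁ Z₁ C₁ G₂ Z₂ C₂ _ _ _ _ hZ₁ hZ₂ hp₁ hp₂ hC₁ hC₂
    lam₁ lam₂ hl₁ hl₂ B₁ B₂ hB₁ hB₂ U₁ U₂ d
  have hnG : (G₁.prod G₂).Normal := inferInstance
  have hnZ : (Z₁.prod Z₂).Normal := inferInstance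
  have h1 := hPRS (PowerSeries ℤ) p E₁ E₂ G₁ Z₁ G₂ Z₂ hZ₁ hZ₂ hp₁ hp₂
    (Fs p O (G₁.prod G₂) (C₁.prod C₂) (fun x => lam₁ x.1 * lam₂ x.2) (PB B₁ B₂) (U₁ ×ˢ U₂))
    (Fs p O G₁ C₁ lam₁ B₁ U₁) (Fs p O G₂ C₂ lam₂ B₂ U₂) (fun H₁ H₂ => by
      ext n
      unfold Fs
      rw [PowerSeries.coeff_mul, PowerSeries.coeff_mk,
        Finset.Nat.sum_antidiagonal_eq_sum_range_succ_mk]
      rw [hPCN p O hO E₁ E₂ G₁ C₁ G₂ C₂ lam₁ lam₂ hl₁ hl₂ B₁ B₂ hB₁ hB₂ U₁ U₂ n H₁ H₂]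
      have hc : Nat.card (G₁.prod G₂ ⊓ H₁.prod H₂ : Subgroup (E₁ × E₂)) =
          Nat.card (G₁ ⊓ H₁ : Subgroup E₁) * Nat.card (G₂ ⊓ H₂ : Subgroup E₂) := by
        rw [← Nat.card_prod]
        refine Nat.card_congr
          { toFun := fun x => (⟨x.1.1, x.2.1.1, x.2.2.1⟩, ⟨x.1.2, x.2.1.2, x.2.2.2⟩)
            invFun := fun x => ⟨(x.1.1, x.2.1), ⟨x.1.2.1, x.2.2.1⟩, ⟨x.1.2.2, x.2.2.2⟩⟩
            left_inv := fun x => rfl
            right_inv := fun x => rfl }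
      rw [hc]
      push_cast
      rw [Finset.mul_sum]
      refine Finset.sum_congr rfl fun q _ => ?_
      rw [PowerSeries.coeff_mk, PowerSeries.coeff_mk]
      ring)
  have h2 := congrArg (PowerSeries.coeff d) h1
  rw [coeff_CS hALX p O (G₁.prod G₂) (Z₁.prod Z₂) (C₁.prod C₂) (fun z hz =>
      ⟨⟨(hC₁ _ hz.1).1, (hC₂ _ hz.2).1⟩, fun g hg =>
        Prod.ext ((hC₁ _ hz.1).2 _ hg.1) ((hC₂ _ hz.2).2 _ hg.2)⟩),
    PowerSeries.coeff_mul, Finset.Nat.sum_antidiagonal_eq_sum_range_succ_mk] at h2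
  have h3 : Nat.card (G₁.prod G₂ : Subgroup (E₁ × E₂)) = Nat.card G₁ * Nat.card G₂ := by
    rw [← Nat.card_prod]
    exact Nat.card_congr (G₁.prodEquiv G₂).toEquiv
  have h4 : (0 : ℤ) < (Nat.card G₁ : ℤ) * (Nat.card G₂ : ℤ) := by
    have a1 : 0 < Nat.card G₁ := Nat.card_pos
    have a2 : 0 < Nat.card G₂ := Nat.card_pos
    positivity
  refine mul_left_cancel₀ h4.ne' ?_
  rw [h3] at h2
  push_cast at h2
  rw [h2, Finset.mul_sum]
  refine Finset.sum_congr rfl fun q _ => ?_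
  rw [coeff_CS hALX p O G₁ Z₁ C₁ hC₁, coeff_CS hALX p O G₂ Z₂ C₂ hC₂]
  ring

end Pool.Agent.Q261.OS
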